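import Mathlib

/-!
# Finite projective planes from presemifields

Definitions of projective plane and Levi graph used in the main theorem, and the standard plane
coordinatised by a finite presemifield.
-/

namespace Pool.Agent.Helper85.Levi

/-- `I : P → L → Prop` is the incidence relation of a projective plane: two distinct points lie on
exactly one common line, two distinct lines meet in exactly one point, and there are four distinct
points no three of which lie on a common line. -/
structure IsProjectivePlane {P L : Type} (I : P → L → Prop) : Prop where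
  /-- Two distinct points lie on exactly one common line. -/
  join : ∀ p q : P, p ≠ q → ∃! l : L, I p l ∧ I q l
  /-- Two distinct lines meet in exactly one common point. -/
  meet : ∀ l m : L, l ≠ m → ∃! p : P, I p l ∧ I p m
  /-- There are four points, no three of them on a common line. -/
  quad : ∃ f : Fin 4 → P, Function.Injective f ∧
    ∀ i j k : Fin 4, i ≠ j → i ≠ k → j ≠ k → ∀ l : L, ¬ (I (f i) l ∧ I (f j) l ∧ I (f k) l)

/-- The Levi graph (incidence graph) of an incidence relation: a point `p` and a line `l` are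
adjacent exactly when `I p l`; there are no other adjacencies. -/
def leviGraph {P L : Type} (I : P → L → Prop) : SimpleGraph (P ⊕ L) where
  Adj u v := (∃ p l, u = Sum.inl p ∧ v = Sum.inr l ∧ I p l) ∨
    (∃ p l, v = Sum.inl p ∧ u = Sum.inr l ∧ I p l)
  symm := ⟨fun _ _ h => h.symm⟩
  loopless := ⟨by
    rintro u (⟨p, l, h1, h2, -⟩ | ⟨p, l, h1, h2, -⟩)
    · rw [h1] at h2; cases h2
    · rw [h1] at h2; cases h2⟩

/-- A multiplication on `F` that is biadditive and has no zero divisors. -/
structure IsPresemifield (F : Type) [Field F] (m : F → F → F) : Prop where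
  addL : ∀ x y s, m (x + y) s = m x s + m y s
  addR : ∀ x s t, m x (s + t) = m x s + m x t
  nzd : ∀ x s, m x s = 0 → x = 0 ∨ s = 0

variable {F : Type} [Field F] {m : F → F → F}

theorem IsPresemifield.swap (h : IsPresemifield F m) : IsPresemifield F (fun s x => m x s) :=
  ⟨fun _ _ _ => h.addR _ _ _, fun _ _ _ => h.addL _ _ _, fun _ _ hx => (h.nzd _ _ hx).symm⟩

theorem IsPresemifield.zeroL (h : IsPresemifield F m) (s : F) : m 0 s = 0 := by
  have := h.addL 0 0 s
  rw [add_zero] at this
  simpa using this

theorem IsPresemifield.zeroR (h : IsPresemifield F m) (x : F) : m x 0 = 0 := by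
  have := h.addR x 0 0
  rw [add_zero] at this
  simpa using this

theorem IsPresemifield.negR (h : IsPresemifield F m) (x s : F) : m x (-s) = -m x s := by
  have := h.addR x s (-s)
  rw [add_neg_cancel, h.zeroR] at this
  exact (neg_eq_of_add_eq_zero_right this.symm).symm

theorem IsPresemifield.subR (h : IsPresemifield F m) (x s t : F) :
    m x (s - t) = m x s - m x t := by
  rw [sub_eq_add_neg, h.addR, h.negR, ← sub_eq_add_neg]

theorem IsPresemifield.subL (h : IsPresemifield F m) (x y s : F) :
    m (x - y) s = m x s - m y s := h.swap.subR s x y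

theorem IsPresemifield.existsUnique_right [Finite F] (h : IsPresemifield F m) (x b : F)
    (hx : x ≠ 0) : ∃! s, m x s = b := by
  have hinj : Function.Injective (m x) := by
    intro s t hst
    have : m x (s - t) = 0 := by rw [h.subR, hst, sub_self]
    rcases h.nzd _ _ this with h1 | h1
    · exact absurd h1 hx
    · exact sub_eq_zero.mp h1
  have hsurj := Finite.surjective_of_injective hinj
  obtain ⟨s, hs⟩ := hsurj b
  exact ⟨s, hs, fun t ht => hinj (ht.trans hs.symm)⟩

/-- The incidence relation of the plane coordinatised by `m`. Points and lines are both indexed by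
`(F × F) ⊕ Option F`. The affine point `(x, y)` is on the line `[s, t]` when `m x s = y + t`;
`some c` is the vertical line `x = c` (respectively the point at infinity of slope `c`), and `none`
is the line at infinity (respectively the point at infinity of the vertical lines). -/
def inc (m : F → F → F) : (F × F) ⊕ Option F → (F × F) ⊕ Option F → Prop
  | Sum.inl p, Sum.inl l => m p.1 l.1 = p.2 + l.2
  | Sum.inl p, Sum.inr (some c) => p.1 = c
  | Sum.inl _, Sum.inr none => False
  | Sum.inr (some d), Sum.inl l => d = l.1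
  | Sum.inr (some _), Sum.inr (some _) => False
  | Sum.inr (some _), Sum.inr none => True
  | Sum.inr none, Sum.inl _ => False
  | Sum.inr none, Sum.inr _ => True

theorem inc_swap (m : F → F → F) (p l : (F × F) ⊕ Option F) :
    inc m p l ↔ inc (fun s x => m x s) l p := by
  rcases p with ⟨x, y⟩ | _ | d <;> rcases l with ⟨s, t⟩ | _ | c <;> simp [inc, add_comm, eq_comm]

theorem inc_join [Finite F] (h : IsPresemifield F m) (p q : (F × F) ⊕ Option F) (hpq : p ≠ q) :
    ∃! l, inc m p l ∧ inc m q l := by
  -- affine point and slope point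
  have aff_slope : ∀ x y d : F, ∃! l, inc m (Sum.inl (x, y)) l ∧ inc m (Sum.inr (some d)) l := by
    intro x y d
    refine ⟨Sum.inl (d, m x d - y), by simp [inc], ?_⟩
    rintro (⟨s, t⟩ | _ | c) ⟨h1, h2⟩
    · simp only [inc] at h1 h2
      subst h2
      rw [h1]; simp
    · simp [inc] at h1
    · simp [inc] at h2
  have aff_inf : ∀ x y : F, ∃! l, inc m (Sum.inl (x, y)) l ∧ inc m (Sum.inr none) l := by
    intro x y
    refine ⟨Sum.inr (some x), by simp [inc], ?_⟩
    rintro (⟨s, t⟩ | _ | c) ⟨h1, h2⟩
    · simp [inc] at h2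
    · simp [inc] at h1
    · simp only [inc] at h1
      rw [h1]
  have slope_inf : ∀ d : F, ∃! l, inc m (Sum.inr (some d)) l ∧ inc m (Sum.inr none) l := by
    intro d
    refine ⟨Sum.inr none, by simp [inc], ?_⟩
    rintro (⟨s, t⟩ | _ | c) ⟨h1, h2⟩
    · simp [inc] at h2
    · rfl
    · simp [inc] at h1
  have comm : ∀ p q, (∃! l, inc m p l ∧ inc m q l) → ∃! l, inc m q l ∧ inc m p l := by
    intro p q hpq
    simpa only [and_comm] using hpq
  rcases p with ⟨x, y⟩ | _ | d <;> rcases q with ⟨x', y'⟩ | _ | d'
  · by_cases hx : x = x'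
    · subst hx
      have hy : y ≠ y' := fun hy => hpq (by rw [hy])
      refine ⟨Sum.inr (some x), by simp [inc], ?_⟩
      rintro (⟨s, t⟩ | _ | c) ⟨h1, h2⟩
      · simp only [inc] at h1 h2
        exact absurd (add_right_cancel (h1.symm.trans h2)) hy
      · simp [inc] at h1
      · simp only [inc] at h1
        rw [h1]
    · obtain ⟨s, hs, hsu⟩ := h.existsUnique_right (x - x') (y - y') (sub_ne_zero.mpr hx)
      rw [h.subL] at hs
      refine ⟨Sum.inl (s, m x s - y), ?_, ?_⟩
      · simp only [inc]
        refine ⟨by ring, ?_⟩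
        linear_combination -hs
      · rintro (⟨s', t'⟩ | _ | c) ⟨h1, h2⟩
        · simp only [inc] at h1 h2
          have : s' = s := by
            apply hsu
            rw [h.subL]
            linear_combination h1 - h2
          subst this
          have : t' = m x s' - y := by linear_combination -h1
          rw [this]
        · simp [inc] at h1
        · simp only [inc] at h1 h2
          exact absurd (h1.trans h2.symm) hx
  · exact aff_inf x y
  · exact aff_slope x y d'
  · exact comm _ _ (aff_inf x' y')
  · exact absurd rfl hpq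
  · exact comm _ _ (slope_inf d')
  · exact comm _ _ (aff_slope x' y' d)
  · exact slope_inf d
  · have hd : d ≠ d' := fun hd => hpq (by rw [hd])
    refine ⟨Sum.inr none, by simp [inc], ?_⟩
    rintro (⟨s, t⟩ | _ | c) ⟨h1, h2⟩
    · simp only [inc] at h1 h2
      exact absurd (h1.trans h2.symm) hd
    · rfl
    · simp [inc] at h1

/-- The plane coordinatised by a finite presemifield is a projective plane. -/
theorem isProjectivePlane_inc [Finite F] (h : IsPresemifield F m) :
    IsProjectivePlane (inc m) where
  join := inc_join h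
  meet l k hlk := by
    have := inc_join h.swap l k hlk
    simpa only [← inc_swap] using this
  quad := by
    let f : Fin 4 → (F × F) ⊕ Option F :=
      ![Sum.inr none, Sum.inr (some 0), Sum.inl (0, 0), Sum.inl (1, 1)]
    have hz0 : ∀ s, m 0 s = 0 := h.zeroL
    have h0z : ∀ s, m s 0 = 0 := h.zeroR
    have key : ∀ l : (F × F) ⊕ Option F,
        ¬ (inc m (f 0) l ∧ inc m (f 1) l ∧ inc m (f 2) l) ∧
        ¬ (inc m (f 0) l ∧ inc m (f 1) l ∧ inc m (f 3) l) ∧
        ¬ (inc m (f 0) l ∧ inc m (f 2) l ∧ inc m (f 3) l) ∧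
        ¬ (inc m (f 1) l ∧ inc m (f 2) l ∧ inc m (f 3) l) := by
      rintro (⟨s, t⟩ | _ | c)
      · simp only [f, inc, Matrix.cons_val]
        refine ⟨by simp, by simp, by simp, ?_⟩
        rintro ⟨h1, h2, h3⟩
        rw [← h1] at h2 h3
        rw [h0z] at h2 h3
        rw [zero_add] at h2
        rw [← h2] at h3
        simp at h3
      · simp [f, inc]
      · simp only [f, inc, Matrix.cons_val]
        refine ⟨by simp, by simp, ?_, by simp⟩
        rintro ⟨-, h1, h2⟩
        exact zero_ne_one (h1.trans h2.symm)
    refine ⟨f, ?_, ?_⟩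
    · intro i j hij
      fin_cases i <;> fin_cases j <;> simp [f] at hij ⊢
    · intro i j k hij hik hjk l
      obtain ⟨k1, k2, k3, k4⟩ := key l
      fin_cases i <;> fin_cases j <;> fin_cases k <;>
        first
        | exact absurd rfl hij
        | exact absurd rfl hik
        | exact absurd rfl hjk
        | (rintro ⟨h1, h2, h3⟩
           first
           | exact k1 ⟨h1, h2, h3⟩ | exact k1 ⟨h1, h3, h2⟩ | exact k1 ⟨h2, h1, h3⟩
           | exact k1 ⟨h2, h3, h1⟩ | exact k1 ⟨h3, h1, h2⟩ | exact k1 ⟨h3, h2, h1⟩
           | exact k2 ⟨h1, h2, h3⟩ | exact k2 ⟨h1, h3, h2⟩ | exact k2 ⟨h2, h1, h3⟩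
           | exact k2 ⟨h2, h3, h1⟩ | exact k2 ⟨h3, h1, h2⟩ | exact k2 ⟨h3, h2, h1⟩
           | exact k3 ⟨h1, h2, h3⟩ | exact k3 ⟨h1, h3, h2⟩ | exact k3 ⟨h2, h1, h3⟩
           | exact k3 ⟨h2, h3, h1⟩ | exact k3 ⟨h3, h1, h2⟩ | exact k3 ⟨h3, h2, h1⟩
           | exact k4 ⟨h1, h2, h3⟩ | exact k4 ⟨h1, h3, h2⟩ | exact k4 ⟨h2, h1, h3⟩
           | exact k4 ⟨h2, h3, h1⟩ | exact k4 ⟨h3, h1, h2⟩ | exact k4 ⟨h3, h2, h1⟩)

end Pool.Agent.Helper85.Levi
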