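import Mathlib

/-!
# Conditional expectations on towers of finite fields of characteristic two

We build finite fields of characteristic two with a chain of subfields of odd relative degree,
described through the trace maps (conditional expectations) onto the subfields.
-/

namespace Pool.Agent.Helper85.Levi

open Finset

/-- For an extension of finite fields of characteristic two, the trace commutes with squaring. -/
theorem trace_sq (K L : Type) [Field K] [Field L] [Finite L] [Algebra K L] [CharP L 2]
    (x : L) : Algebra.trace K L (x ^ 2) = (Algebra.trace K L x) ^ 2 := by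
  apply FaithfulSMul.algebraMap_injective K L
  rw [RingHom.map_pow, FiniteField.algebraMap_trace_eq_sum_pow,
    FiniteField.algebraMap_trace_eq_sum_pow, sum_pow_char 2]
  refine Finset.sum_congr rfl fun i _ => ?_
  rw [← pow_mul, ← pow_mul, Nat.mul_comm]

/-- For an extension of odd degree in characteristic two, the trace is the identity on the
ground field. -/
theorem trace_algebraMap_odd (K L : Type) [Field K] [Field L] [Algebra K L] [CharP K 2]
    (hodd : Odd (Module.finrank K L)) (x : K) :
    Algebra.trace K L (algebraMap K L x) = x := by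
  obtain ⟨k, hk⟩ := hodd
  have h2 : (2 : K) = 0 := CharTwo.two_eq_zero
  rw [Algebra.trace_algebraMap, hk, nsmul_eq_mul]
  push_cast
  rw [h2]
  ring

/-- A family of additive maps on a field that behaves like the family of traces onto the members
of a decreasing chain of subfields of odd degree. -/
structure IsExp (K : Type) [Field K] (E : ℕ → K → K) : Prop where
  add : ∀ i x y, E i (x + y) = E i x + E i y
  comp : ∀ i j x, E i (E j x) = E (max i j) x
  mul : ∀ i a b, E i (E i a * b) = E i a * E i b
  sq : ∀ i x, E i (x ^ 2) = (E i x) ^ 2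

theorem IsExp.zero {K : Type} [Field K] {E : ℕ → K → K} (h : IsExp K E) (i : ℕ) :
    E i 0 = 0 := by
  have := h.add i 0 0
  rw [add_zero] at this
  simpa using this

theorem IsExp.sum {K : Type} [Field K] {E : ℕ → K → K} (h : IsExp K E) (i : ℕ) {ι : Type}
    (s : Finset ι) (f : ι → K) : E i (∑ j ∈ s, f j) = ∑ j ∈ s, E i (f j) := by
  classical
  induction s using Finset.induction_on with
  | empty => simp [h.zero]
  | insert a s ha ih => rw [Finset.sum_insert ha, Finset.sum_insert ha, h.add, ih]

/-- The pulled-back family on an odd degree extension. -/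
theorem IsExp.pull {K L : Type} [Field K] [Field L] [Finite L] [Algebra K L] [CharP K 2]
    [CharP L 2] (hodd : Odd (Module.finrank K L)) {E : ℕ → K → K} (h : IsExp K E) :
    IsExp L (fun i x => algebraMap K L (E i (Algebra.trace K L x))) where
  add i x y := by simp only [map_add, h.add]
  comp i j x := by
    rw [trace_algebraMap_odd K L hodd, h.comp]
  mul i a b := by
    rw [← Algebra.smul_def, map_smul, smul_eq_mul, h.mul, map_mul]
  sq i x := by
    rw [trace_sq, h.sq, RingHom.map_pow]

/-- Towers exist: for every `n` there is a finite field of characteristic two with a chain of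
conditional expectations `E 0 = id, E 1, E 2, …` and nonzero elements `m 0, …, m (n-1)` such that
`E i (m j) = m j` for `i ≤ j` and `E i (m j) = 0` for `i > j`. -/
theorem exists_tower (n : ℕ) : ∃ (K : Type) (_ : Field K) (_ : Finite K) (_ : CharP K 2)
    (E : ℕ → K → K) (m : ℕ → K), IsExp K E ∧ (∀ x, E 0 x = x) ∧ (∀ j < n, m j ≠ 0) ∧
      ∀ i, ∀ j < n, E i (m j) = if i ≤ j then m j else 0 := by
  induction n with
  | zero =>
    have : Fact (Nat.Prime 2) := ⟨Nat.prime_two⟩
    refine ⟨ZMod 2, inferInstance, inferInstance, inferInstance, fun _ x => x, fun _ => 0,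
      ⟨?_, ?_, ?_, ?_⟩, ?_, ?_, ?_⟩ <;> simp
  | succ n ih =>
    obtain ⟨K, _, _, _, E, m, hE, h0, hm, hEm⟩ := ih
    have : Fact (Nat.Prime 2) := ⟨Nat.prime_two⟩
    let L := FiniteField.Extension K 2 3
    have hfin : Module.finrank K L = 3 := FiniteField.finrank_extension K 2 3
    have : CharP L 2 := charP_of_injective_algebraMap (FaithfulSMul.algebraMap_injective K L) 2
    have hodd : Odd (Module.finrank K L) := by rw [hfin]; decide
    have hz : ∃ x : L, x ≠ 0 ∧ Algebra.trace K L x = 0 := by
      by_contra hcon
      push Not at hcon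
      have hinj : Function.Injective (Algebra.trace K L) := by
        rw [injective_iff_map_eq_zero]
        intro x hx
        by_contra hx0
        exact hcon x hx0 hx
      have := LinearMap.finrank_le_finrank_of_injective hinj
      rw [hfin, Module.finrank_self] at this
      omega
    obtain ⟨x, hx0, hxt⟩ := hz
    have hP := hE.pull (L := L) hodd
    refine ⟨L, inferInstance, inferInstance, inferInstance,
      fun i y => Nat.casesOn i y (fun i => algebraMap K L (E i (Algebra.trace K L y))),
      fun j => Nat.casesOn j x (fun j => algebraMap K L (m j)), ⟨?_, ?_, ?_, ?_⟩, ?_, ?_, ?_⟩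
    · intro i a b
      cases i with
      | zero => rfl
      | succ i => exact hP.add i a b
    · intro i j a
      cases i with
      | zero => simp
      | succ i =>
        cases j with
        | zero => simp
        | succ j =>
          have := hP.comp i j a
          rw [Nat.succ_max_succ]
          exact this
    · intro i a b
      cases i with
      | zero => rfl
      | succ i => exact hP.mul i a b
    · intro i a
      cases i with
      | zero => rfl
      | succ i => exact hP.sq i a
    · intro a; rfl
    · intro j hj
      cases j with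
      | zero => exact hx0
      | succ j =>
        simp only []
        rw [Ne, map_eq_zero]
        exact hm j (by omega)
    · intro i j hj
      cases i with
      | zero => simp
      | succ i =>
        cases j with
        | zero => simp [hxt, hE.zero]
        | succ j =>
          simp only []
          rw [trace_algebraMap_odd K L hodd, hEm i j (by omega)]
          by_cases hij : i ≤ j
          · simp [hij]
          · simp [hij]

/-- Large odd extensions with a prescribed set of products: there are elements `a p` in an
extension of odd degree such that, for every symmetric matrix `c` over the ground field, there is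
an `s` with `trace (a p * a q * s) = c p q` for all `p, q`. -/
theorem exists_ext (K : Type) [Field K] [Finite K] [CharP K 2] (k : ℕ) :
    ∃ (F : Type) (_ : Field F) (_ : Finite F) (_ : CharP F 2) (_ : Algebra K F)
      (a : Fin k → F), Odd (Module.finrank K F) ∧
      ∀ c : Fin k → Fin k → K, (∀ p q, c p q = c q p) →
        ∃ s : F, ∀ p q, Algebra.trace K F (a p * a q * s) = c p q := by
  have : Fact (Nat.Prime 2) := ⟨Nat.prime_two⟩
  let D : ℕ := 2 * 3 ^ k + 1
  have : NeZero D := ⟨by simp [D]⟩
  let F := FiniteField.Extension K 2 D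
  have hfin : Module.finrank K F = D := FiniteField.finrank_extension K 2 D
  have : CharP F 2 := charP_of_injective_algebraMap (FaithfulSMul.algebraMap_injective K F) 2
  let pb := Field.powerBasisOfFiniteOfSeparable K F
  have hdim : pb.dim = D := pb.finrank.symm.trans hfin
  -- solving trace equations along the power basis
  have hsolve : ∀ c : ℕ → K, ∃ s : F, ∀ i < D, Algebra.trace K F (pb.gen ^ i * s) = c i := by
    intro c
    let f : F →ₗ[K] K := pb.basis.constr K (fun i => c i)
    have hnd := traceForm_nondegenerate K F
    obtain ⟨s, hs⟩ : ∃ s : F, Algebra.traceForm K F s = f :=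
      ⟨((Algebra.traceForm K F).toDual hnd).symm f, by
        have := LinearMap.BilinForm.apply_toDual_symm_apply (hB := hnd) f
        ext v
        exact this v⟩
    refine ⟨s, fun i hi => ?_⟩
    have h1 : Algebra.traceForm K F s (pb.gen ^ i) = f (pb.gen ^ i) := by rw [hs]
    rw [Algebra.traceForm_apply] at h1
    rw [mul_comm, h1]
    have h2 : pb.gen ^ i = pb.basis ⟨i, lt_of_lt_of_eq hi hdim.symm⟩ := by rw [pb.basis_eq_pow]
    rw [h2]
    simp only [f, Module.Basis.constr_basis]
  have key : ∀ a b c d : ℕ, a ≤ b → c ≤ d → 3 ^ a + 3 ^ b = 3 ^ c + 3 ^ d → a = c ∧ b = d := by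
    have aux : ∀ a b c d : ℕ, a ≤ b → 3 ^ a + 3 ^ b = 3 ^ c + 3 ^ d → d ≤ b := by
      intro a b c d hab h
      by_contra hlt
      push Not at hlt
      have h1 : 3 ^ a ≤ 3 ^ b := Nat.pow_le_pow_right (by norm_num) hab
      have h2 : 3 ^ (b + 1) ≤ 3 ^ d := Nat.pow_le_pow_right (by norm_num) hlt
      have h3 : 0 < 3 ^ b := by positivity
      have h4 : 0 < 3 ^ c := by positivity
      rw [pow_succ] at h2
      omega
    intro a b c d hab hcd h
    have h1 : b = d := le_antisymm (aux c d a b hcd h.symm) (aux a b c d hab h)
    subst h1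
    have h2 : 3 ^ a = 3 ^ c := by omega
    exact ⟨Nat.pow_right_injective (by norm_num) h2, rfl⟩
  refine ⟨F, inferInstance, inferInstance, inferInstance, inferInstance,
    fun p => pb.gen ^ (3 ^ (p : ℕ)), ?_, ?_⟩
  · rw [hfin]; exact ⟨3 ^ k, rfl⟩
  · intro c hc
    classical
    let C : ℕ → K := fun i =>
      if h : ∃ pq : Fin k × Fin k, 3 ^ (pq.1 : ℕ) + 3 ^ (pq.2 : ℕ) = i then
        c h.choose.1 h.choose.2 else 0
    obtain ⟨s, hs⟩ := hsolve C
    refine ⟨s, fun p q => ?_⟩
    have hlt : 3 ^ (p : ℕ) + 3 ^ (q : ℕ) < D := by
      have h1 : 3 ^ (p : ℕ) ≤ 3 ^ k := Nat.pow_le_pow_right (by norm_num) p.2.le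
      have h2 : 3 ^ (q : ℕ) ≤ 3 ^ k := Nat.pow_le_pow_right (by norm_num) q.2.le
      simp only [D]
      omega
    simp only []
    rw [← pow_add, hs _ hlt]
    have hex : ∃ pq : Fin k × Fin k, 3 ^ (pq.1 : ℕ) + 3 ^ (pq.2 : ℕ) = 3 ^ (p : ℕ) + 3 ^ (q : ℕ) :=
      ⟨(p, q), rfl⟩
    simp only [C, dif_pos hex]
    have hch := hex.choose_spec
    set r := hex.choose with hr
    rcases le_total (r.1 : ℕ) r.2 with h1 | h1 <;> rcases le_total (p : ℕ) q with h2 | h2
    · obtain ⟨h3, h4⟩ := key _ _ _ _ h1 h2 hch
      rw [Fin.ext h3, Fin.ext h4]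
    · obtain ⟨h3, h4⟩ := key _ _ _ _ h1 h2 (by omega)
      rw [Fin.ext h3, Fin.ext h4, hc]
    · obtain ⟨h3, h4⟩ := key _ _ _ _ h1 h2 (by omega)
      rw [Fin.ext h3, Fin.ext h4, hc]
    · obtain ⟨h3, h4⟩ := key _ _ _ _ h1 h2 (by omega)
      rw [Fin.ext h3, Fin.ext h4]

end Pool.Agent.Helper85.Levi
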