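import Mathlib
import Pool.Agent.Helper85.Levi.Tower
import Pool.Agent.Helper85.Levi.Plane

/-!
# Kantor–Williams type presemifields

For a finite field `F` of characteristic two with conditional expectations `T 0, …, T (n-1)` and
arbitrary elements `z i`, the product
`x * y = x y² + ∑ (T i (z i x) y + z i T i (x y))` has no zero divisors.
-/

namespace Pool.Agent.Helper85.Levi

open Finset

variable {F : Type} [Field F]

/-- The presemifield product. -/
def kw (T : ℕ → F → F) (n : ℕ) (z : ℕ → F) (x y : F) : F :=
  x * y ^ 2 + ∑ i ∈ range n, (T i (z i * x) * y + z i * T i (x * y))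

theorem kw_addL {T : ℕ → F → F} (hT : IsExp F T) (n : ℕ) (z : ℕ → F) (x y s : F) :
    kw T n z (x + y) s = kw T n z x s + kw T n z y s := by
  have e : ∑ i ∈ range n, (T i (z i * (x + y)) * s + z i * T i ((x + y) * s)) =
      ∑ i ∈ range n, (T i (z i * x) * s + z i * T i (x * s)) +
      ∑ i ∈ range n, (T i (z i * y) * s + z i * T i (y * s)) := by
    rw [← sum_add_distrib]
    refine sum_congr rfl fun i _ => ?_
    rw [mul_add, add_mul x y s, hT.add, hT.add]
    ring
  unfold kw
  rw [e]
  ring

variable [CharP F 2]

theorem kw_addR {T : ℕ → F → F} (hT : IsExp F T) (n : ℕ) (z : ℕ → F) (x s t : F) :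
    kw T n z x (s + t) = kw T n z x s + kw T n z x t := by
  have e : ∑ i ∈ range n, (T i (z i * x) * (s + t) + z i * T i (x * (s + t))) =
      ∑ i ∈ range n, (T i (z i * x) * s + z i * T i (x * s)) +
      ∑ i ∈ range n, (T i (z i * x) * t + z i * T i (x * t)) := by
    rw [← sum_add_distrib]
    refine sum_congr rfl fun i _ => ?_
    rw [mul_add x s t, hT.add]
    ring
  unfold kw
  rw [e, CharTwo.add_sq]
  ring

/-- The no-zero-divisor argument, in symmetric form. -/
theorem kw_core {T : ℕ → F → F} (hT : IsExp F T) (n : ℕ) (w : ℕ → F) (u : F)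
    (h : u ^ 2 + ∑ i ∈ range n, (T i (w i) * u + w i * T i u) = 0) : u = 0 := by
  have step : ∀ k ≤ n, ∀ i, n - k ≤ i → i < n → T i u = 0 := by
    intro k
    induction k with
    | zero => intro _ i h1 h2; omega
    | succ k ih =>
      intro hk i h1 h2
      have IH := ih (by omega)
      rcases Nat.lt_or_ge i (n - k) with h3 | h3
      swap
      · exact IH i h3 h2
      -- now `i = n - (k + 1)`
      have hterm : ∀ l ∈ range n, T i (T l (w l) * u + w l * T l u) =
          (if l ≤ i then 0 else T l (w l)) * T i u := by
        intro l hl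
        rw [mem_range] at hl
        by_cases hli : l ≤ i
        · have e1 : T i (T l (w l) * u) = T i (T l (w l) * T l u) := by
            have := hT.comp i l (T l (w l) * u)
            rw [max_eq_left hli] at this
            rw [← this, hT.mul]
          have e2 : T i (w l * T l u) = T i (T l (w l) * T l u) := by
            have := hT.comp i l (w l * T l u)
            rw [max_eq_left hli] at this
            rw [← this, mul_comm (w l), hT.mul, mul_comm]
          rw [hT.add, e1, e2, if_pos hli, zero_mul]
          exact CharTwo.add_self_eq_zero _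
        · have e0 : T l u = 0 := IH l (by omega) hl
          have e1 : T i (T l (w l)) = T l (w l) := by
            rw [hT.comp, max_eq_right (by omega)]
          rw [e0, mul_zero, add_zero, if_neg hli]
          calc T i (T l (w l) * u) = T i (T i (T l (w l)) * u) := by rw [e1]
            _ = T i (T l (w l)) * T i u := hT.mul _ _ _
            _ = T l (w l) * T i u := by rw [e1]
      have happ := congrArg (T i) h
      rw [hT.zero, hT.add, hT.sq, hT.sum, sum_congr rfl hterm, ← sum_mul] at happ
      set K := ∑ l ∈ range n, (if l ≤ i then 0 else T l (w l)) with hK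
      have hfac : T i u * (T i u + K) = 0 := by rw [← happ]; ring
      rcases mul_eq_zero.mp hfac with h4 | h4
      · exact h4
      have h5 : T i u = K := by
        have h6 : T i u = -K := eq_neg_of_add_eq_zero_left h4
        rw [h6, CharTwo.neg_eq]
      have h7 : T (i + 1) K = K := by
        rw [hK, hT.sum]
        refine sum_congr rfl fun l _ => ?_
        by_cases hli : l ≤ i
        · rw [if_pos hli, hT.zero]
        · rw [if_neg hli, hT.comp, max_eq_right (by omega)]
      rcases Nat.lt_or_ge (i + 1) n with h8 | h8
      · have h9 : T (i + 1) (T i u) = 0 := by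
          rw [hT.comp, max_eq_left (by omega)]
          exact IH (i + 1) (by omega) h8
        rw [h5, h7] at h9
        rw [h5, h9]
      · rw [h5, hK]
        refine sum_eq_zero fun l hl => ?_
        rw [mem_range] at hl
        rw [if_pos (by omega)]
  have hall : ∀ i, i < n → T i u = 0 := fun i hi => step n le_rfl i (by omega) hi
  have hsum : ∑ i ∈ range n, (T i (w i) * u + w i * T i u) =
      (∑ i ∈ range n, T i (w i)) * u := by
    rw [sum_mul]
    refine sum_congr rfl fun i hi => ?_
    rw [mem_range] at hi
    rw [hall i hi, mul_zero, add_zero]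
  rw [hsum] at h
  set K := ∑ i ∈ range n, T i (w i) with hK
  have hfac : u * (u + K) = 0 := by rw [← h]; ring
  rcases mul_eq_zero.mp hfac with h4 | h4
  · exact h4
  have h5 : u = K := by
    have h6 : u = -K := eq_neg_of_add_eq_zero_left h4
    rw [h6, CharTwo.neg_eq]
  rcases Nat.eq_zero_or_pos n with h6 | h6
  · rw [h5, hK, h6]; simp
  · have h7 : T 0 K = K := by
      rw [hK, hT.sum]
      refine sum_congr rfl fun l _ => ?_
      rw [hT.comp, max_eq_right (by omega)]
    have h8 := hall 0 h6
    rw [h5, h7] at h8
    rw [h5, h8]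

theorem kw_nzd {T : ℕ → F → F} (hT : IsExp F T) (n : ℕ) (z : ℕ → F) (x y : F)
    (h : kw T n z x y = 0) : x = 0 ∨ y = 0 := by
  rw [← mul_eq_zero]
  apply kw_core hT n (fun i => z i * x)
  have h1 := congrArg (fun v => x * v) h
  simp only [kw, mul_zero] at h1
  rw [← h1, mul_add, mul_sum]
  congr 1
  · ring
  · refine sum_congr rfl fun i _ => ?_
    ring

theorem isPresemifield_kw {T : ℕ → F → F} (hT : IsExp F T) (n : ℕ) (z : ℕ → F) :
    IsPresemifield F (kw T n z) :=
  ⟨kw_addL hT n z, kw_addR hT n z, kw_nzd hT n z⟩

end Pool.Agent.Helper85.Levi
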