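import Mathlib
import Pool.Agent.Helper85.Levi.Semifield

/-!
# Every finite partial linear space embeds in a finite presemifield plane
-/

namespace Pool.Agent.Helper85.Levi

open Finset

/-- Every finite partial linear space (any two distinct points lie on at most one common line) is
embedded, together with its incidences, in the affine part of a plane coordinatised by a finite
presemifield. -/
theorem exists_presemifield {P L : Type*} [Finite P] [Finite L] (I : P → L → Prop)
    (hI : ∀ p q : P, ∀ l l' : L, p ≠ q → I p l → I q l → I p l' → I q l' → l = l') :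
    ∃ (F : Type) (_ : Field F) (_ : Finite F) (mul : F → F → F) (X Y : P → F) (s t : L → F),
      IsPresemifield F mul ∧ Function.Injective X ∧ Function.Injective s ∧
      ∀ p l, I p l → mul (X p) (s l) = Y p + t l := by
  classical
  obtain ⟨n, ⟨e⟩⟩ := Finite.exists_equiv_fin (P × L)
  obtain ⟨k, ⟨f⟩⟩ := Finite.exists_equiv_fin (P ⊕ L)
  obtain ⟨K, _, _, _, E, m, hE, hE0, hm, hEm⟩ := exists_tower n
  obtain ⟨F, _, _, _, _, a', hodd, hsolve'⟩ := exists_ext K k
  -- transport the solvability statement to the index type `P ⊕ L`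
  let a : P ⊕ L → F := fun i => a' (f i)
  have hsolve : ∀ c : P ⊕ L → P ⊕ L → K, (∀ i j, c i j = c j i) →
      ∃ s : F, ∀ i j, Algebra.trace K F (a i * a j * s) = c i j := by
    intro c hc
    obtain ⟨s, hs⟩ := hsolve' (fun i j => c (f.symm i) (f.symm j)) (fun i j => hc _ _)
    refine ⟨s, fun i j => ?_⟩
    have := hs (f i) (f j)
    simpa using this
  -- solvability for the squares
  have hsolve2 : ∀ c : P → K, ∃ y : F, ∀ p, Algebra.trace K F (a (Sum.inl p) ^ 2 * y) = c p := by
    intro c
    obtain ⟨y, hy⟩ := hsolve (fun i j => if i = j then Sum.elim c (fun _ => 0) i else 0) (by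
      intro i j
      by_cases hij : i = j
      · subst hij; rfl
      · rw [if_neg hij, if_neg (Ne.symm hij)])
    refine ⟨y, fun p => ?_⟩
    have := hy (Sum.inl p) (Sum.inl p)
    rw [← pow_two] at this
    simpa using this
  let M : P → L → K := fun p l => m (e (p, l))
  -- the data
  let κ : P → L → K := fun p l => if I p l then M p l else 0
  let γ : P → P → K := fun p q =>
    if h : p ≠ q ∧ ∃ l, I p l ∧ I q l then M p h.2.choose else 0
  have hγ : ∀ p q l, p ≠ q → I p l → I q l → γ p q = M p l := by
    intro p q l hpq hp hq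
    have hex : p ≠ q ∧ ∃ l, I p l ∧ I q l := ⟨hpq, l, hp, hq⟩
    simp only [γ, dif_pos hex]
    obtain ⟨h1, h2⟩ := hex.2.choose_spec
    rw [hI p q _ l hpq h1 h2 hp hq]
  have hγ0 : ∀ p, γ p p = 0 := by
    intro p
    simp [γ]
  let c : L → P → P → K := fun l p q =>
    if I q l then γ p q + κ p l else if I p l then γ q p + κ q l else 0
  have hc : ∀ l p q, c l p q = c l q p := by
    intro l p q
    by_cases hpq : p = q
    · subst hpq; rfl
    by_cases hp : I p l <;> by_cases hq : I q l
    · simp only [c, if_pos hp, if_pos hq, hγ p q l hpq hp hq, hγ q p l (Ne.symm hpq) hq hp, κ]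
      rw [CharTwo.add_self_eq_zero, CharTwo.add_self_eq_zero]
    · simp only [c, if_pos hp, if_neg hq]
    · simp only [c, if_neg hp, if_pos hq]
    · simp only [c, if_neg hp, if_neg hq]
  -- the lines
  have hs : ∀ l : L, ∃ s : F, (∀ p q, Algebra.trace K F (a (Sum.inl p) * a (Sum.inl q) * s) = c l p q)
      ∧ ∀ l', Algebra.trace K F (a (Sum.inr l') * a (Sum.inr l') * s) = if l' = l then 1 else 0 := by
    intro l
    obtain ⟨s, hs⟩ := hsolve (fun i j => match i, j with
      | Sum.inl p, Sum.inl q => c l p q
      | Sum.inl _, Sum.inr _ => 0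
      | Sum.inr _, Sum.inl _ => 0
      | Sum.inr l', Sum.inr l'' => if l' = l ∧ l'' = l then 1 else 0) (by
        rintro (p | p) (q | q)
        · exact hc l p q
        · rfl
        · rfl
        · simp only [and_comm])
    refine ⟨s, fun p q => hs _ _, fun l' => ?_⟩
    have := hs (Sum.inr l') (Sum.inr l')
    simpa using this
  choose s hs1 hs2 using hs
  have hYex : ∀ q : P, ∃ y : F, ∀ p, Algebra.trace K F (a (Sum.inl p) ^ 2 * y) = (γ p q) ^ 2 :=
    fun q => hsolve2 _
  choose Y hY using hYex
  have htex : ∀ l : L, ∃ y : F, ∀ p, Algebra.trace K F (a (Sum.inl p) ^ 2 * y) = (κ p l) ^ 2 :=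
    fun l => hsolve2 _
  choose t ht using htex
  let X : P → F := fun p => a (Sum.inl p) ^ 2
  -- the functions `r`, `ρ` and `z`
  let R : P → L → F := fun q l => if I q l then X q * s l ^ 2 + Y q + t l else 0
  have hR : ∀ p q l, Algebra.trace K F (X p * R q l) = 0 := by
    intro p q l
    by_cases hq : I q l
    · simp only [R, if_pos hq]
      have e1 : X p * (X q * s l ^ 2 + Y q + t l) =
          (a (Sum.inl p) * a (Sum.inl q) * s l) ^ 2 + X p * Y q + X p * t l := by
        simp only [X]; ring
      rw [e1, map_add, map_add, trace_sq, hs1]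
      simp only [X]
      rw [hY, ht]
      simp only [c, if_pos hq]
      rw [CharTwo.add_sq, add_assoc, CharTwo.add_self_eq_zero]
    · simp only [R, if_neg hq, mul_zero, map_zero]
  let r : ℕ → F := fun j => if h : j < n then R (e.symm ⟨j, h⟩).1 (e.symm ⟨j, h⟩).2 else 0
  have hr : ∀ p j, Algebra.trace K F (X p * r j) = 0 := by
    intro p j
    by_cases hj : j < n
    · simp only [r, dif_pos hj]; exact hR _ _ _
    · simp only [r, dif_neg hj, mul_zero, map_zero]
  obtain ⟨ρ, hρ0, hρs⟩ : ∃ ρ : ℕ → F, ρ 0 = 0 ∧ ∀ i, ρ (i + 1) = (m i)⁻¹ • r i :=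
    ⟨fun j => Nat.casesOn j 0 (fun i => (m i)⁻¹ • r i), rfl, fun _ => rfl⟩
  let z : ℕ → F := fun j => ρ (j + 1) - ρ j
  have hρ : ∀ p j, Algebra.trace K F (X p * ρ j) = 0 := by
    intro p j
    cases j with
    | zero => rw [hρ0, mul_zero, map_zero]
    | succ j => rw [hρs, mul_smul_comm, map_smul, hr, smul_zero]
  have hz : ∀ p j, Algebra.trace K F (z j * X p) = 0 := by
    intro p j
    simp only [z]
    rw [mul_comm, mul_sub, map_sub, hρ p (j + 1), hρ p j, sub_zero]
  let T : ℕ → F → F := fun i x => algebraMap K F (E i (Algebra.trace K F x))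
  have hT : IsExp F T := hE.pull hodd
  refine ⟨F, inferInstance, inferInstance, kw T n z, X, Y, s, t, isPresemifield_kw hT n z,
    ?_, ?_, ?_⟩
  · intro p q hpq
    by_contra hne
    obtain ⟨y, hy⟩ := hsolve2 (fun x => if x = p then 1 else 0)
    have h1 := hy p
    have h2 := hy q
    rw [if_pos rfl] at h1
    rw [if_neg (Ne.symm hne)] at h2
    have h3 : a (Sum.inl p) ^ 2 = a (Sum.inl q) ^ 2 := hpq
    rw [h3, h2] at h1
    exact zero_ne_one h1
  · intro l l' hll
    by_contra hne
    have h1 := hs2 l l
    have h2 := hs2 l' l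
    rw [if_pos rfl] at h1
    rw [if_neg hne] at h2
    have h3 : s l = s l' := hll
    rw [h3, h2] at h1
    exact zero_ne_one h1
  · intro q l hq
    set j : ℕ := (e (q, l) : ℕ) with hj
    have hjn : j < n := (e (q, l)).2
    have htr : Algebra.trace K F (X q * s l) = m j := by
      have h1 : (Algebra.trace K F (X q * s l)) = c l q q := by
        have := hs1 l q q
        rw [← this]
        congr 1
        simp only [X]; ring
      rw [h1]
      simp only [c, if_pos hq, hγ0, zero_add, κ, M]
      rfl
    have hrj : r j = X q * s l ^ 2 + Y q + t l := by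
      have h1 : e.symm ⟨j, hjn⟩ = (q, l) := by
        rw [Equiv.symm_apply_eq]
      simp only [r, dif_pos hjn, h1, R, if_pos hq]
    have hterm : ∀ i ∈ range n, T i (z i * X q) * s l + z i * T i (X q * s l) =
        if i < j + 1 then z i * algebraMap K F (m j) else 0 := by
      intro i hi
      rw [mem_range] at hi
      have h1 : T i (z i * X q) = 0 := by
        simp only [T]
        rw [hz, hE.zero, map_zero]
      have h2 : T i (X q * s l) = if i ≤ j then algebraMap K F (m j) else 0 := by
        simp only [T]
        rw [htr, hEm i j hjn]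
        split_ifs
        · rfl
        · exact map_zero _
      rw [h1, h2, zero_mul, zero_add]
      by_cases hij : i ≤ j
      · rw [if_pos hij, if_pos (by omega)]
      · rw [if_neg hij, if_neg (by omega), mul_zero]
    have hsum : ∑ i ∈ range n, (T i (z i * X q) * s l + z i * T i (X q * s l)) = r j := by
      rw [sum_congr rfl hterm, ← sum_filter]
      have hfilt : (range n).filter (fun i => i < j + 1) = range (j + 1) := by
        ext i
        simp only [mem_filter, mem_range]
        omega
      rw [hfilt, ← sum_mul]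
      have htel : ∑ i ∈ range (j + 1), z i = ρ (j + 1) - ρ 0 := Finset.sum_range_sub ρ (j + 1)
      rw [htel, hρ0, hρs, sub_zero, Algebra.smul_def, mul_comm, ← mul_assoc, ← map_mul,
        mul_inv_cancel₀ (hm j hjn), map_one, one_mul]
    unfold kw
    rw [hsum, hrj]
    have h2 : (X q * s l ^ 2) + (X q * s l ^ 2) = 0 := CharTwo.add_self_eq_zero _
    linear_combination h2

end Pool.Agent.Helper85.Levi
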